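import Mathlib
import Pool.Agent.Y706.HN6

/-!
# The periodic points of 100% of the members of every family of Hénon maps

For 100% of the rational members of an arbitrary algebraic family of generalized Hénon maps over a
number field `k`, the number of the periodic points of degree at most `B` over `k` is equal to the
number of the periodic points of degree at most `B` of the generic member of the family, and this
number is finite.

Proof.  All members but a proportion `ε` have good reduction at the places above two primes `p`, `q`
which depend only on the family and on `ε` (a norm form is not divisible by them). Hence the periods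
of the points of degree at most `B` divide one number `e`. If a positive proportion of the members
had more points than the generic member, then a generic ultrafilter on the parameters which contains
this set gives an ultrapower of `k` in which the field of rational functions in the parameters is
relatively algebraically closed (Hilbert's irreducibility theorem with density), and the points of
period `e`, of which there are at most `d^e`, would be algebraic and of degree at most `B` over that
field. Conversely the ultrapower of the algebraic closure of `k` is algebraically closed, so that all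
points of the generic member give points of almost all members. The same embedding bounds the periods
of the generic member.
-/

namespace Pool.Agent.Results.MP_0e6b5f_nt.FamiliesExactCount

open Polynomial NumberField Filter Topology

/-- The field `k(t_1, ..., t_m)`. -/
abbrev RF (k : Type) [Field k] (m : ℕ) : Type := FractionRing (MvPolynomial (Fin m) k)

/-- `F`, `δ`, `μ` are the data of a generalized Hénon map `(x, y) ↦ (y, (F(y) - δ x) / μ)` of degree
`d`, or of a family of such maps. -/
def IsHenon {R : Type} [CommRing R] (d : ℕ) (F : R[X]) (δ μ : R) : Prop :=
  F.natDegree = d ∧ δ ≠ 0 ∧ μ ≠ 0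

/-- The Hénon map `(x, y) ↦ (y, (F(y) - δ x) / μ)` on the plane over the algebraic closure. -/
noncomputable def henon {K : Type} [Field K] (F : K[X]) (δ μ : K)
    (P : AlgebraicClosure K × AlgebraicClosure K) : AlgebraicClosure K × AlgebraicClosure K :=
  (P.2, (aeval P.2 F - algebraMap K (AlgebraicClosure K) δ * P.1) /
    algebraMap K (AlgebraicClosure K) μ)

/-- The periodic points `P` of the Hénon map with `[K(P) : K] ≤ B`. -/
def periodic {K : Type} [Field K] (F : K[X]) (δ μ : K) (B : ℕ) :
    Set (AlgebraicClosure K × AlgebraicClosure K) :=
  {P | (∃ n : ℕ, 0 < n ∧ (henon F δ μ)^[n] P = P) ∧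
    Module.finrank K (IntermediateField.adjoin K {P.1, P.2}) ≤ B}

/-- The inclusion of the polynomials in `k(t_1, ..., t_m)`. -/
noncomputable def gen (k : Type) [Field k] (m : ℕ) : MvPolynomial (Fin m) k →+* RF k m :=
  algebraMap (MvPolynomial (Fin m) k) (RF k m)

/-- The evaluation at `t = (v_1 / v_0, ..., v_m / v_0)`. -/
noncomputable def spec {k : Type} [Field k] {m : ℕ} (v : Fin (m + 1) → 𝓞 k) :
    MvPolynomial (Fin m) k →+* k :=
  MvPolynomial.eval fun l : Fin m =>
    algebraMap (𝓞 k) k (v l.succ) / algebraMap (𝓞 k) k (v 0)

/-- The vectors of integers of `k` whose coordinates with respect to the basis `ω` are at most `H`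
in absolute value. -/
def box {k : Type} [Field k] {J : Type} (ω : Module.Basis J ℤ (𝓞 k)) (m H : ℕ) :
    Set (Fin (m + 1) → 𝓞 k) :=
  {v | ∀ l j, |ω.repr (v l) j| ≤ (H : ℤ)}

/-- The set `S` contains 100% of the vectors in the boxes. -/
def AlmostAll {k : Type} [Field k] {J : Type} (ω : Module.Basis J ℤ (𝓞 k)) (m : ℕ)
    (S : Set (Fin (m + 1) → 𝓞 k)) : Prop :=
  Tendsto (fun H : ℕ => (({v | v ∈ box ω m H ∧ v ∈ S}.ncard : ℝ) / ((box ω m H).ncard : ℝ)))
    atTop (𝓝 1)

/-- Let `k` be a number field (of any degree) with an integral basis `ω`, let
`F ∈ k[t_1, ..., t_m][y]` be of degree `d ≥ 2` in `y`, and let `δ`, `μ` be nonzero polynomials in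
`t_1, ..., t_m` over `k`: a family `f_t(x, y) = (y, (F_t(y) - δ(t) x) / μ(t))` of generalized Hénon
maps. Then for every `B` the generic member has only finitely many periodic points `P` of degree at
most `B` over `k(t_1, ..., t_m)`; and for 100% of the vectors `(v_0, ..., v_m)` of integers of `k`,
`v_0 ≠ 0` and the member at `t = (v_1 / v_0, ..., v_m / v_0)` is a generalized Hénon map of degree `d`
which has exactly as many periodic points `P` with `[k(P) : k] ≤ B`. -/
theorem result (k : Type) [Field k] [NumberField k] (J : Type) [Fintype J]
    (ω : Module.Basis J ℤ (𝓞 k)) (d : ℕ) (hd : 2 ≤ d) (m : ℕ)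
    (F : (MvPolynomial (Fin m) k)[X]) (δ μ : MvPolynomial (Fin m) k) (hF : IsHenon d F δ μ)
    (B : ℕ) :
    (periodic (F.map (gen k m)) (gen k m δ) (gen k m μ) B).Finite ∧
    AlmostAll ω m {v | v 0 ≠ 0 ∧ IsHenon d (F.map (spec v)) (spec v δ) (spec v μ) ∧
      (periodic (F.map (spec v)) (spec v δ) (spec v μ) B).encard =
        (periodic (F.map (gen k m)) (gen k m δ) (gen k m μ) B).encard} :=
  Pool.Agent.Y706.main6 k J ω d hd m F δ μ hF B

end Pool.Agent.Results.MP_0e6b5f_nt.FamiliesExactCount
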