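import Pool.Agent.Results.MP_0e6b5f_nt.LargeDegreeHenon
import Pool.Agent.Y854.GM.WinV
import Pool.Agent.Y854.GM.Win

/-!
# Hénon maps of all large degrees: at most nine rational periodic points for all constant terms in windows

The height `H(c)` of a rational number is the maximum of `|numerator|` and denominator; the normalised height of a pair
`(d, c)` is `H(c) ^ (1 / d)`. Let `v ≥ 1` be a sequence with exponent of convergence at most `τ` (for `v_k = k ^ q` this is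
`1 / q`, for `v_k = q ^ k` or `k!` it is `0`) and `θ < 1`. For all `α > 0` outside a set of Hausdorff dimension at most
`τ / (1 - θ)` and all `m` there are `d₀` and `δ > 0` such that for all rational `a, b ≠ 0` and all `g ∈ ℚ[y]` of degree at
most `m` and all but finitely many `k`: for ALL degrees `d₀ ≤ d ≤ v_k ^ δ` and ALL rational `c` with
`|H(c) ^ (1 / d) - α v_k| ≤ v_k ^ θ` the generalised Hénon map `(x, y) ↦ (y, a y^d + g(y) + c - b x)` has at most nine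
rational periodic points.
-/

set_option autoImplicit false

open Filter Topology
open scoped ENNReal

namespace Pool.Agent.Results.MP_0e6b5f_nt.HenonWindows

open LargeDegreeHenon (HeightLE henon periodic exceptional)

/-- the exponent of convergence of the sequence `v` is at most `τ` -/
def ExpLe (v : ℕ → ℝ) (τ : ℝ) : Prop := ∀ t : ℝ, τ < t → Summable (fun n : ℕ => (v n) ^ (-t))

/-- the height of a rational number -/
def height (c : ℚ) : ℕ := max c.num.natAbs c.den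

/-- the normalised height `H(c) ^ (1 / d)` -/
noncomputable def normalised (d : ℕ) (c : ℚ) : ℝ := (height c : ℝ) ^ (1 / (d : ℝ))

lemma heightLE_iff (B : ℕ) (c : ℚ) : HeightLE B c ↔ height c ≤ B := by
  unfold HeightLE height
  rw [max_le_iff]
  constructor
  · rintro ⟨h1, h2⟩
    refine ⟨?_, h2⟩
    rw [← Int.natCast_natAbs] at h1
    exact_mod_cast h1
  · rintro ⟨h1, h2⟩
    refine ⟨?_, h2⟩
    rw [← Int.natCast_natAbs]
    exact_mod_cast h1

lemma exists_height (c : ℚ) : ∃ M : ℕ, ∀ B : ℕ, M ≤ B → HeightLE B c :=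
  ⟨height c, fun B hB => (heightLE_iff B c).2 hB⟩

/-- one map up to the constant term and one `ε` -/
lemma one_map (m : ℕ) (ε : ℝ) (hε : 0 < ε) : ∃ (d₀ : ℕ) (δ : ℝ), 0 < δ ∧
    ∀ (a b : ℚ) (g : Polynomial ℚ), a ≠ 0 → b ≠ 0 → g.natDegree ≤ m →
    ∀ {v : ℕ → ℝ} {τ θ : ℝ}, (∀ k, 1 ≤ v k) → 0 ≤ τ → ExpLe v τ → θ < 1 →
    ∃ E : Set ℝ, dimH E ≤ ENNReal.ofReal ((ε + τ) / (1 - θ)) ∧ ∀ α : ℝ, 0 < α → α ∉ E → ∃ k₀ : ℕ, ∀ k : ℕ, k₀ ≤ k →
      ∀ (d : ℕ) (c : ℚ), d₀ ≤ d → (d : ℝ) ≤ (v k) ^ δ → |normalised d c - α * v k| ≤ (v k) ^ θ →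
        (periodic (henon a b g d c)).encard ≤ 9 := by
  obtain ⟨d₀, δ, hd₀, hδ, h⟩ := LargeDegreeHenon.result m 1 ε hε
  refine ⟨d₀, δ, hδ, fun a b g ha hb hg v τ θ hv hτ hE hθ1 => ?_⟩
  have hvp : ∀ k, 0 < v k := fun k => lt_of_lt_of_le one_pos (hv k)
  have htv : Tendsto v atTop atTop := Pool.Agent.Y854.GM.tendsto_of_expLe hvp hτ hE
  -- a bound for the heights of `a`, `b` and the coefficients of `g`
  obtain ⟨M, hM⟩ : ∃ M : ℕ, ∀ B : ℕ, M ≤ B → HeightLE B a ∧ HeightLE B b ∧ ∀ i, HeightLE B (g.coeff i) := by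
    refine ⟨max (max (height a) (height b)) (max 1 ((Finset.range (g.natDegree + 1)).sup fun i => height (g.coeff i))),
      fun B hB => ⟨(heightLE_iff B a).2 ?_, (heightLE_iff B b).2 ?_, fun i => (heightLE_iff B _).2 ?_⟩⟩
    · exact ((le_max_left _ _).trans (le_max_left _ _)).trans hB
    · exact ((le_max_right _ _).trans (le_max_left _ _)).trans hB
    · have h2 := ((le_max_right _ _).trans hB)
      rw [max_le_iff] at h2
      rcases Nat.lt_or_ge g.natDegree i with h3 | h3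
      · rw [Polynomial.coeff_eq_zero_of_natDegree_lt h3]
        refine le_trans ?_ h2.1
        unfold height
        simp
      · refine le_trans ?_ h2.2
        exact Finset.le_sup (f := fun i => height (g.coeff i)) (Finset.mem_range.2 (by omega))
  obtain ⟨E, h1, h2⟩ := Pool.Agent.Y854.GM.windowsV
    (fun k => {t : ℕ × ℚ | d₀ ≤ t.1 ∧ (t.1 : ℝ) ≤ (v k) ^ δ ∧ 9 < (periodic (henon a b g t.1 t.2)).encard})
    (fun _ t => normalised t.1 t.2) 1 hv hτ hE (s := ε) hε.le hθ1 (by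
      intro A ε' hε'
      obtain ⟨k₁, hk₁⟩ := (htv.eventually (eventually_ge_atTop (M : ℝ))).exists_forall_of_atTop
      refine ⟨((A : ℝ) + 2) ^ ε, k₁, fun k hk => ?_⟩
      have hvk := hvp k
      have hA0 : (0 : ℝ) ≤ A := Nat.cast_nonneg A
      set Y : ℕ := ⌈((A : ℝ) + 1) * v k⌉₊ with hY
      have hYl : ((A : ℝ) + 1) * v k ≤ Y := Nat.le_ceil _
      have hYu : (Y : ℝ) ≤ ((A : ℝ) + 2) * v k := by
        have h3 : (Y : ℝ) < ((A : ℝ) + 1) * v k + 1 := Nat.ceil_lt_add_one (by positivity)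
        have := hv k
        nlinarith
      have hvY : v k ≤ Y := by
        refine le_trans ?_ hYl
        nlinarith
      have hY1 : 1 ≤ Y := by
        have h3 : (1 : ℝ) ≤ Y := (hv k).trans hvY
        exact_mod_cast h3
      have hMY : M ≤ Y ^ 1 := by
        rw [pow_one]
        have h3 : (M : ℝ) ≤ Y := (hk₁ k hk).trans hvY
        exact_mod_cast h3
      obtain ⟨e1, e2, e3⟩ := hM (Y ^ 1) hMY
      obtain ⟨f1, f2⟩ := h Y hY1 a b g ha hb e1 e2 hg e3
      have hsub : {t : ℕ × ℚ | t ∈ {t : ℕ × ℚ | d₀ ≤ t.1 ∧ (t.1 : ℝ) ≤ (v k) ^ δ ∧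
          9 < (periodic (henon a b g t.1 t.2)).encard} ∧ normalised t.1 t.2 ≤ ((A : ℝ) + 1) * v k} ⊆
          exceptional a b g d₀ δ Y := by
        rintro ⟨d, c⟩ ⟨⟨g1, g2, g3⟩, g4⟩
        have g1' : d₀ ≤ d := g1
        have hd0 : d ≠ 0 := by omega
        refine ⟨g1, g2.trans (Real.rpow_le_rpow hvk.le hvY hδ.le), ?_, g3⟩
        rw [heightLE_iff]
        have g5 : normalised d c ≤ Y := le_trans g4 hYl
        have g6 : (height c : ℝ) ≤ (Y : ℝ) ^ d := by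
          have g7 : (normalised d c) ^ d ≤ (Y : ℝ) ^ d :=
            pow_le_pow_left₀ (Real.rpow_nonneg (Nat.cast_nonneg _) _) g5 d
          unfold normalised at g7
          rwa [one_div, Real.rpow_inv_natCast_pow (Nat.cast_nonneg _) hd0] at g7
        exact_mod_cast g6
      refine ⟨f1.subset hsub, ?_⟩
      calc _ ≤ ((exceptional a b g d₀ δ Y).ncard : ℝ) := Nat.cast_le.2 (Set.ncard_le_ncard hsub f1)
        _ ≤ (Y : ℝ) ^ ε := f2
        _ ≤ (((A : ℝ) + 2) * v k) ^ ε := Real.rpow_le_rpow (Nat.cast_nonneg _) hYu hε.le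
        _ = ((A : ℝ) + 2) ^ ε * (v k) ^ ε := Real.mul_rpow (by positivity) hvk.le
        _ ≤ ((A : ℝ) + 2) ^ ε * (v k) ^ (ε + ε') := by
            apply mul_le_mul_of_nonneg_left _ (by positivity)
            exact Real.rpow_le_rpow_of_exponent_le (hv k) (by linarith))
  refine ⟨E, h1, fun α hα hαE => ?_⟩
  obtain ⟨k₀, hk⟩ := h2 α hα hαE
  refine ⟨k₀, fun k hk1 d c hd hdv hw => ?_⟩
  by_contra hcon
  rw [not_le] at hcon
  have h3 := hk k hk1 (d, c) ⟨hd, hdv, hcon⟩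
  rw [one_mul] at h3
  exact absurd hw (not_le.2 h3)

/-- **Theorem.** Let `v ≥ 1` be a sequence of exponent of convergence at most `τ ≥ 0` and `θ < 1`. There is a set `E` of
Hausdorff dimension at most `τ / (1 - θ)` such that for each `α > 0` outside `E` and each `m` there are `d₀` and `δ > 0` with
the following property: for all rational `a, b ≠ 0` and all `g ∈ ℚ[y]` of degree at most `m` there is `k₀` such that for all
`k ≥ k₀`, ALL degrees `d` with `d₀ ≤ d ≤ v_k ^ δ` and ALL rational `c` with `|H(c) ^ (1 / d) - α v_k| ≤ v_k ^ θ` the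
generalised Hénon map `(x, y) ↦ (y, a y^d + g(y) + c - b x)` has at most nine rational periodic points. The sequences
`v_k = (k + 1) ^ q` and `v_k = q ^ k` have exponent of convergence at most `1 / q` and `0`. -/
theorem result :
    (∀ (v : ℕ → ℝ) (τ θ : ℝ), (∀ n, 1 ≤ v n) → 0 ≤ τ → ExpLe v τ → θ < 1 →
      ∃ E : Set ℝ, dimH E ≤ ENNReal.ofReal (τ / (1 - θ)) ∧ ∀ α : ℝ, 0 < α → α ∉ E → ∀ m : ℕ,
        ∃ (d₀ : ℕ) (δ : ℝ), 0 < δ ∧ ∀ (a b : ℚ) (g : Polynomial ℚ), a ≠ 0 → b ≠ 0 → g.natDegree ≤ m →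
          ∃ k₀ : ℕ, ∀ k : ℕ, k₀ ≤ k → ∀ (d : ℕ) (c : ℚ), d₀ ≤ d → (d : ℝ) ≤ (v k) ^ δ →
            |normalised d c - α * v k| ≤ (v k) ^ θ → (periodic (henon a b g d c)).encard ≤ 9) ∧
    (∀ q : ℝ, 0 < q → ExpLe (fun n : ℕ => ((n : ℝ) + 1) ^ q) (1 / q)) ∧
    (∀ q : ℝ, 1 < q → ExpLe (fun n : ℕ => q ^ n) 0) := by
  refine ⟨fun v τ θ hv hτ hE hθ1 => ?_,
    fun κ hκ => Pool.Agent.Y854.GM.expLe_pow κ hκ, fun κ hκ => Pool.Agent.Y854.GM.expLe_geom κ hκ⟩
  have hcnt : Countable (Polynomial ℚ) :=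
    Cardinal.mk_le_aleph0_iff.1 (Polynomial.cardinalMk_le_max.trans (max_le Cardinal.mk_le_aleph0 le_rfl))
  have hall : ∀ j m : ℕ, _ := fun j m => one_map m (1 / ((j : ℝ) + 1)) (by positivity)
  choose d₀ δ hδ hmap using hall
  -- the exceptional sets for the triples `(a, b, g)`
  have hsets : ∀ (j m : ℕ) (e : ℚ × ℚ × Polynomial ℚ), ∃ G : Set ℝ,
      dimH G ≤ ENNReal.ofReal ((1 / ((j : ℝ) + 1) + τ) / (1 - θ)) ∧ ∀ α : ℝ, 0 < α → α ∉ G →
      e.1 ≠ 0 → e.2.1 ≠ 0 → e.2.2.natDegree ≤ m → ∃ k₀ : ℕ, ∀ k : ℕ, k₀ ≤ k → ∀ (d : ℕ) (c : ℚ), d₀ j m ≤ d →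
        (d : ℝ) ≤ (v k) ^ (δ j m) → |normalised d c - α * v k| ≤ (v k) ^ θ →
          (periodic (henon e.1 e.2.1 e.2.2 d c)).encard ≤ 9 := by
    intro j m e
    by_cases he : e.1 ≠ 0 ∧ e.2.1 ≠ 0 ∧ e.2.2.natDegree ≤ m
    · obtain ⟨G, h1, h2⟩ := hmap j m e.1 e.2.1 e.2.2 he.1 he.2.1 he.2.2 hv hτ hE hθ1
      exact ⟨G, h1, fun α hα hαG _ _ _ => h2 α hα hαG⟩
    · exact ⟨∅, by simp, fun α _ _ h1 h2 h3 => absurd ⟨h1, h2, h3⟩ he⟩
  choose G hG1 hG2 using hsets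
  have hlim : Tendsto (fun m : ℕ => ENNReal.ofReal ((1 / ((m : ℝ) + 1) + τ) / (1 - θ))) atTop
      (𝓝 (ENNReal.ofReal ((0 + τ) / (1 - θ)))) :=
    ENNReal.tendsto_ofReal ((tendsto_one_div_add_atTop_nhds_zero_nat.add_const τ).div_const (1 - θ))
  rw [zero_add] at hlim
  refine ⟨⋃ m, ⋂ j, ⋃ e, G j m e, ?_, fun α hα hαE m => ?_⟩
  · rw [dimH_iUnion]
    refine iSup_le fun m => ge_of_tendsto' hlim fun j => (dimH_mono (Set.iInter_subset _ j)).trans ?_
    rw [dimH_iUnion]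
    exact iSup_le fun e => hG1 j m e
  · rw [Set.mem_iUnion] at hαE
    push Not at hαE
    have h1 := hαE m
    rw [Set.mem_iInter] at h1
    push Not at h1
    obtain ⟨j, hj⟩ := h1
    rw [Set.mem_iUnion] at hj
    push Not at hj
    refine ⟨d₀ j m, δ j m, hδ j m, fun a b g ha hb hg => ?_⟩
    exact hG2 j m (a, b, g) α hα (hj (a, b, g)) ha hb hg

end Pool.Agent.Results.MP_0e6b5f_nt.HenonWindows
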