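import Mathlib
import Pool.Agent.Y902.GN.Dy5
import Pool.Agent.Y902.GN.FinB

/-!
# Rational periodic points of Hénon maps (y, a y^d + g(y) + c - b x) of large degree

For all `k`, `E` and `ε > 0` there are `d₀ > k` and `δ > 0` such that for every `Y ≥ 1`, all
rational `a ≠ 0`, `b ≠ 0` and every polynomial `g` of degree at most `k` with rational coefficients,
`a`, `b` and all coefficients of `g` being of height at most `Y ^ E`, there are at most `Y ^ ε` pairs
`(d, c)` with `d₀ ≤ d ≤ Y ^ δ` and `c` rational of height at most `Y ^ d` for which the generalized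
Hénon map `(x, y) ↦ (y, a y ^ d + g(y) + c - b x)` has more than nine rational periodic points.

Method: let `S` be the set of the coordinates of the rational periodic points. For nonzero `x` and
`y` in `S` with `x ≠ ± y` the number `a * (x ^ d - y ^ d)` has height at most a fixed power of `Y`.
By the determinant method in an ultraproduct, with the unbounded exponent as a coefficient, such
pairs `(x, y)` are at most `Y ^ ε` in number, all `d` together. If there are more than nine periodic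
points, then all nonzero elements of `S` belong to such pairs.
-/

set_option autoImplicit false

namespace Pool.Agent.Results.MP_0e6b5f_nt.LargeDegreeHenon

open Pool.Agent.Y902.GN

/-- the height of `q` is at most `B` -/
def HeightLE (B : ℕ) (q : ℚ) : Prop := |q.num| ≤ (B : ℤ) ∧ q.den ≤ B

/-- the generalized Hénon map `(x, y) ↦ (y, a y ^ d + g(y) + c - b x)` -/
def henon (a b : ℚ) (g : Polynomial ℚ) (d : ℕ) (c : ℚ) (P : ℚ × ℚ) : ℚ × ℚ :=
  (P.2, a * P.2 ^ d + g.eval P.2 + c - b * P.1)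

/-- the rational periodic points -/
def periodic (f : ℚ × ℚ → ℚ × ℚ) : Set (ℚ × ℚ) := {P | ∃ n : ℕ, 1 ≤ n ∧ f^[n] P = P}

/-- the pairs `(d, c)` with `d₀ ≤ d ≤ Y ^ δ`, `c` of height at most `Y ^ d`, such that the Hénon map
has more than nine rational periodic points -/
def exceptional (a b : ℚ) (g : Polynomial ℚ) (d₀ : ℕ) (δ : ℝ) (Y : ℕ) : Set (ℕ × ℚ) :=
  {t | d₀ ≤ t.1 ∧ (t.1 : ℝ) ≤ (Y : ℝ) ^ δ ∧ HeightLE (Y ^ t.1) t.2 ∧
    9 < (periodic (henon a b g t.1 t.2)).encard}

theorem iter_mul {α : Type*} {f : α → α} {P : α} {n : ℕ} (h : f^[n] P = P) (m : ℕ) :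
    f^[n * m] P = P := by
  induction m with
  | zero => rfl
  | succ m ih => rw [Nat.mul_succ, Function.iterate_add_apply, h, ih]

/-- For all `k`, `E` and `ε > 0` there are `d₀ > k` and `δ > 0` such that for all `Y ≥ 1`, all
rational `a, b ≠ 0` of height at most `Y ^ E` and all `g` of degree at most `k` with rational
coefficients of height at most `Y ^ E` there are at most `Y ^ ε` pairs `(d, c)` with
`d₀ ≤ d ≤ Y ^ δ` and `c` of height at most `Y ^ d` such that `(x, y) ↦ (y, a y^d + g(y) + c - b x)`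
has more than nine rational periodic points. -/
theorem result (k E : ℕ) (ε : ℝ) (hε : 0 < ε) : ∃ (d₀ : ℕ) (δ : ℝ), k < d₀ ∧ 0 < δ ∧
    ∀ Y : ℕ, 1 ≤ Y → ∀ (a b : ℚ) (g : Polynomial ℚ), a ≠ 0 → b ≠ 0 → HeightLE (Y ^ E) a →
      HeightLE (Y ^ E) b → g.natDegree ≤ k → (∀ i, HeightLE (Y ^ E) (g.coeff i)) →
      (exceptional a b g d₀ δ Y).Finite ∧
        ((exceptional a b g d₀ δ Y).ncard : ℝ) ≤ (Y : ℝ) ^ ε := by
  obtain ⟨d₁, δ, hδ, H⟩ := main_cl k E ε hε
  refine ⟨d₁ + k + 1, δ, by omega, hδ, fun Y hY a b g ha _ ha2 hb2 hg hgc => ?_⟩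
  refine fin_of_bound _ _ fun T hT => ?_
  refine H Y hY a b g ha ha2 hb2 hg hgc T fun t ht => ?_
  obtain ⟨h1, h2, h3, h4⟩ := hT t ht
  obtain ⟨f, hf⟩ : ∃ f : ℚ × ℚ → ℚ × ℚ, f = henon a b g t.1 t.2 := ⟨_, rfl⟩
  rw [← hf] at h4
  have hfst : ∀ P, (f P).1 = P.2 := fun P => by rw [hf]; rfl
  have hsnd : ∀ P, (f P).2 = a * P.2 ^ t.1 + g.eval P.2 + t.2 - b * P.1 := fun P => by
    rw [hf]; rfl
  have hper : ∀ P ∈ periodic f, f P ∈ periodic f := by
    rintro P ⟨n, hn, h⟩
    exact ⟨n, hn, by rw [← Function.iterate_succ_apply, Function.iterate_succ_apply', h]⟩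
  have hprev : ∀ P ∈ periodic f, ∀ m : ℕ, ∃ l : ℕ, f (f^[l] P) = f^[m] P := by
    rintro P ⟨n, hn, h⟩ m
    refine ⟨m + n - 1, ?_⟩
    rw [← Function.iterate_succ_apply' f (m + n - 1) P, show (m + n - 1).succ = m + n by omega,
      Function.iterate_add_apply, h]
  refine ⟨by omega, h2, h3, Prod.snd '' periodic f, ?_, ?_⟩
  · by_contra hcon
    rw [not_lt] at hcon
    have hsub : periodic f ⊆ (Prod.snd '' periodic f) ×ˢ (Prod.snd '' periodic f) := by
      intro P hP
      obtain ⟨l, hl⟩ := hprev P hP 0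
      have hl' : f^[l] P ∈ periodic f := by
        clear hl
        induction l with
        | zero => exact hP
        | succ l ih => rw [Function.iterate_succ_apply']; exact hper _ ih
      refine Set.mem_prod.2 ⟨⟨f^[l] P, hl', ?_⟩, ⟨P, hP, rfl⟩⟩
      rw [← hfst, hl]
      rfl
    have h5 := Set.encard_le_encard hsub
    rw [Set.encard_prod] at h5
    have h6 : (Prod.snd '' periodic f).encard * (Prod.snd '' periodic f).encard ≤ 9 := by
      calc (Prod.snd '' periodic f).encard * (Prod.snd '' periodic f).encard ≤ 3 * 3 :=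
            mul_le_mul' hcon hcon
        _ = 9 := by norm_num
    exact absurd (h5.trans h6) (not_le.2 h4)
  · rintro _ ⟨P, hP, rfl⟩
    obtain ⟨n, hn, hnP⟩ := id hP
    refine ⟨Set.range fun m : ℕ => (f^[m] P).2, ?_, ⟨0, rfl⟩, ?_, ?_⟩
    · rintro _ ⟨m, rfl⟩
      refine ⟨f^[m] P, ?_, rfl⟩
      induction m with
      | zero => exact hP
      | succ m ih => rw [Function.iterate_succ_apply']; exact hper _ ih
    · refine ((Finset.range n).image fun m => (f^[m] P).2).finite_toSet.subset ?_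
      rintro _ ⟨m, rfl⟩
      refine Finset.mem_coe.2 (Finset.mem_image.2 ⟨m % n, Finset.mem_range.2
        (Nat.mod_lt _ (by omega)), ?_⟩)
      have h5 : f^[m] P = f^[m % n] P := by
        conv_lhs => rw [← Nat.mod_add_div m n]
        rw [Function.iterate_add_apply, iter_mul hnP]
      exact congrArg Prod.snd h5.symm
    · rintro _ ⟨m, rfl⟩
      obtain ⟨l, hl⟩ := hprev P hP m
      refine ⟨(f^[m + 1] P).2, ⟨m + 1, rfl⟩, (f^[l] P).2, ⟨l, rfl⟩, ?_⟩
      have e1 : (f^[m + 1] P).2 = a * (f^[m] P).2 ^ t.1 + g.eval (f^[m] P).2 + t.2 -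
          b * (f^[m] P).1 := by
        rw [Function.iterate_succ_apply', hsnd]
      have e2 : (f^[l] P).2 = (f^[m] P).1 := by
        rw [← hfst, hl]
      show a * (f^[m] P).2 ^ t.1 = ((f^[m + 1] P).2 + b * (f^[l] P).2 - g.eval (f^[m] P).2) - t.2
      rw [e1, e2]
      ring

end Pool.Agent.Results.MP_0e6b5f_nt.LargeDegreeHenon
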